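import Pool.Agent.Q156.MW.M6

/-!
Simultaneous primes `|F_1(m) + a_1|, ..., |F_n(m) + a_n|`, for instance `m² + a`, `m² + b`, where the
`F_j` are fixed polynomials of degree at least two: for almost all tuples `(a_1, ..., a_n)` the
number of the `m` is as predicted by the conjectures of Hardy, Littlewood, Bateman and Horn, in
all windows longer than a power of `log x`, and for `m` in an arbitrary set (or with arbitrary
weights) only the primes up to a power of `log x` matter.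

Method: for one polynomial and arbitrary weights this is the second moment argument of
`Pool/Agent/Q156/AW` (hand-ins `MP_391708_nt.ArbitrarySets`, `MP_4d57ea_nt.ArbitraryArguments`).
Here the other polynomials, at prime values or replaced by their sieve models, are put into the
weights. The case without weights is completed by the fundamental lemma, uniformly in the tuple.
-/

set_option autoImplicit false

namespace Pool.Agent.Results.MP_2dba45_nt.AlmostAllConstantTerms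

open Finset
open scoped Polynomial

/-- the sum of `w m` over the `m` in `(u, v]` for which all `|F_j(m) + a_j|` are primes -/
noncomputable def primeSum {n : ℕ} (F : Fin n → ℤ[X]) (a : Fin n → ℤ) (w : ℤ → ℝ) (u v : ℤ) : ℝ :=
  ∑ m ∈ (Ioc u v).filter (fun m => ∀ j, ((F j).eval m + a j).natAbs.Prime), w m

open Classical in
/-- the sum of `w m / ∏ log |F_j(m) + a_j|` over the `m` in `(u, v]` for which no `F_j(m) + a_j` has a
prime factor `p ≤ z`, divided by the product of `(1 - 1 / p)^n` over the primes `p ≤ z` -/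
noncomputable def sieveSum {n : ℕ} (F : Fin n → ℤ[X]) (a : Fin n → ℤ) (z : ℕ) (w : ℤ → ℝ) (u v : ℤ) : ℝ :=
  (∏ p ∈ (Icc 1 z).filter Nat.Prime, (1 - 1 / (p : ℝ)))⁻¹ ^ n *
    ∑ m ∈ (Ioc u v).filter (fun m => ∀ j, ∀ p : ℕ, p.Prime → p ≤ z → ¬ (p : ℤ) ∣ (F j).eval m + a j),
      w m / ∏ j, Real.log |(((F j).eval m + a j : ℤ) : ℝ)|

/-- the number of the `m` in `(u, v]` for which all `|F_j(m) + a_j|` are primes -/
noncomputable def count {n : ℕ} (F : Fin n → ℤ[X]) (a : Fin n → ℤ) (u v : ℤ) : ℕ :=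
  ((Ioc u v).filter (fun m => ∀ j, ((F j).eval m + a j).natAbs.Prime)).card

open scoped Classical in
/-- the number of the residues `r` modulo `p` for which `p` divides some `F_j(r) + a_j` -/
noncomputable def nu {n : ℕ} (F : Fin n → ℤ[X]) (a : Fin n → ℤ) (p : ℕ) : ℕ :=
  ((range p).filter (fun r : ℕ => ∃ j, (p : ℤ) ∣ (F j).eval (r : ℤ) + a j)).card

/-- the expected number `(v - u) (log x)^(-n) ∏ (1 - ν(p)/p) (1 - 1/p)^(-n)`, product over the primes
`p ≤ z` -/
noncomputable def expected {n : ℕ} (F : Fin n → ℤ[X]) (a : Fin n → ℤ) (z x : ℕ) (u v : ℤ) : ℝ :=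
  ((v : ℝ) - u) / Real.log x ^ n *
    ∏ p ∈ (Icc 1 z).filter Nat.Prime, ((1 - (nu F a p : ℝ) / p) / (1 - 1 / (p : ℝ)) ^ n)

/-- all tuples `(a_1, ..., a_n)` of integers with `|a_j| ≤ x` -/
noncomputable def Box (n x : ℕ) : Finset (Fin n → ℤ) := Fintype.piFinset (fun _ : Fin n => Icc (-(x : ℤ)) x)

theorem rt_eq (k : ℕ) (F : ℤ[X]) (hF : F.natDegree = k + 1) (x : ℕ) :
    Pool.Agent.TH204.WR.rt k x ^ k = (x : ℝ) ^ (1 - 1 / (F.natDegree : ℝ)) := by
  unfold Pool.Agent.TH204.WR.rt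
  rw [← Real.rpow_natCast, ← Real.rpow_mul (Nat.cast_nonneg _), hF]
  congr 1
  push_cast
  have : (k : ℝ) + 1 ≠ 0 := by positivity
  field_simp
  ring

theorem primeSum_eq {n : ℕ} (F : Fin n → ℤ[X]) (a : Fin n → ℤ) (w : ℤ → ℝ) (u v : ℤ) :
    primeSum F a w u v = ∑ m ∈ Ioc u v, w m * ∏ j, Pool.Agent.Q156.MW.pr (F j) (a j) m := by
  classical
  unfold primeSum Pool.Agent.Q156.MW.pr
  rw [sum_filter]
  apply sum_congr rfl
  intro m _
  rw [prod_boole]
  simp only [mem_univ, true_implies]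
  split_ifs <;> simp

theorem sieveSum_eq {n : ℕ} (F : Fin n → ℤ[X]) (a : Fin n → ℤ) (z : ℕ) (w : ℤ → ℝ) (u v : ℤ) :
    sieveSum F a z w u v = ∑ m ∈ Ioc u v, w m * ∏ j, Pool.Agent.Q156.MW.md z (F j) (a j) m := by
  classical
  unfold sieveSum
  rw [sum_filter, mul_sum]
  apply sum_congr rfl
  intro m _
  split_ifs with h
  · have h1 : ∀ j, Pool.Agent.Q156.MW.md z (F j) (a j) m =
        (∏ p ∈ (Icc 1 z).filter Nat.Prime, (1 - 1 / (p : ℝ)))⁻¹ / Real.log |(((F j).eval m + a j : ℤ) : ℝ)| := by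
      intro j
      unfold Pool.Agent.Q156.MW.md
      rw [if_pos (h j)]
    rw [prod_congr rfl fun j _ => h1 j, prod_div_distrib, prod_const, card_univ, Fintype.card_fin]
    ring
  · rw [Pool.Agent.Q156.MW.md_zero F a z m h]
    simp

/-- **Simultaneous primes for almost all constant terms.** Let `F_1, ..., F_n` be integer polynomials
of degrees `d_j ≥ 2`, for instance `n = 2` and `F_1 = F_2 = m²`.

(1) For all `U`, `C`, `K` there are `B`, `E₀` such that for all `E ≥ E₀`, all large `x` and all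
weights `w i m` in `[-1, 1]` (for instance the indicator functions of arbitrary sets of integers)
all tuples `(a_1, ..., a_n)` with `|a_j| ≤ x` but at most `x^n / (log x)^U` have the following
property. For all `i ≤ (log x)^K`, all signs `s_j` and all windows `(u, v]` of length at least
`(log x)^B` on which all `s_j (F_j(m) + a_j)` lie between `2` and
`(v - u) x^(1 - 1/d_j) (log x)^C`, the weighted number of the `m` in the window with all
`|F_j(m) + a_j|` prime differs from its sieve prediction with the primes `p ≤ z = (log x)^E` by at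
most `(v - u) / (log x)^U`.

(2) For all `ε > 0`, `U`, `C` there are `B`, `E` such that for all large `x` all tuples
`(a_1, ..., a_n)` with `|a_j| ≤ x` but at most `x^n / (log x)^U` have the following property. For all
signs `s_j` and all windows `(u, v]` of length at least `(log x)^B` on which all
`s_j (F_j(m) + a_j)` lie between `x / (log x)^C` and `x (log x)^C` and are at most
`(v - u) x^(1 - 1/d_j) (log x)^C`, the number of the `m` in the window with all `|F_j(m) + a_j|` prime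
is within `ε S + (v - u) / (log x)^U` of the expected number `S`; if moreover no prime divides
`∏ (F_j(m) + a_j)` for all `m`, then `S ≥ (v - u) / (log x)^(n + 1)`. -/
theorem result (n : ℕ) (F : Fin n → ℤ[X]) (hF : ∀ j, 2 ≤ (F j).natDegree) (U C : ℕ) :
    (∀ K : ℕ, ∃ B E₀ : ℕ, ∀ E : ℕ, E₀ ≤ E → ∃ X₀ : ℕ, ∀ x : ℕ, X₀ ≤ x →
      ∀ w : ℕ → ℤ → ℝ, (∀ i m, |w i m| ≤ 1) →
      ∃ Bad ⊆ Box n x, (#Bad : ℝ) ≤ (x : ℝ) ^ n / Real.log x ^ U ∧
      ∀ a ∈ Box n x, a ∉ Bad → ∀ i : ℕ, (i : ℝ) ≤ Real.log x ^ K →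
      ∀ s : Fin n → ℤ, (∀ j, s j = 1 ∨ s j = -1) → ∀ u v : ℤ, Real.log x ^ B ≤ (v : ℝ) - u →
        (∀ j, ∀ m ∈ Ioc u v, 2 ≤ s j * ((F j).eval m + a j) ∧ ((s j * ((F j).eval m + a j) : ℤ) : ℝ) ≤
          ((v : ℝ) - u) * ((x : ℝ) ^ (1 - 1 / ((F j).natDegree : ℝ)) * Real.log x ^ C)) →
        |primeSum F a (w i) u v - sieveSum F a ⌊Real.log x ^ E⌋₊ (w i) u v| ≤
          ((v : ℝ) - u) / Real.log x ^ U) ∧
    (∀ ε : ℝ, 0 < ε → ∃ B E X₀ : ℕ, ∀ x : ℕ, X₀ ≤ x →
      ∃ Bad ⊆ Box n x, (#Bad : ℝ) ≤ (x : ℝ) ^ n / Real.log x ^ U ∧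
      ∀ a ∈ Box n x, a ∉ Bad →
      ∀ s : Fin n → ℤ, (∀ j, s j = 1 ∨ s j = -1) → ∀ u v : ℤ, Real.log x ^ B ≤ (v : ℝ) - u →
        (∀ j, ∀ m ∈ Ioc u v, x / Real.log x ^ C ≤ ((s j * ((F j).eval m + a j) : ℤ) : ℝ) ∧
          ((s j * ((F j).eval m + a j) : ℤ) : ℝ) ≤ x * Real.log x ^ C ∧
          ((s j * ((F j).eval m + a j) : ℤ) : ℝ) ≤
            ((v : ℝ) - u) * ((x : ℝ) ^ (1 - 1 / ((F j).natDegree : ℝ)) * Real.log x ^ C)) →
        |(count F a u v : ℝ) - expected F a ⌊Real.log x ^ E⌋₊ x u v| ≤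
          ε * expected F a ⌊Real.log x ^ E⌋₊ x u v + ((v : ℝ) - u) / Real.log x ^ U ∧
        ((∀ p : ℕ, p.Prime → ∃ m : ℤ, ∀ j, ¬ (p : ℤ) ∣ (F j).eval m + a j) →
          ((v : ℝ) - u) / Real.log x ^ (n + 1) ≤ expected F a ⌊Real.log x ^ E⌋₊ x u v)) := by
  choose k hk using fun j => (⟨(F j).natDegree - 1, by have := hF j; omega⟩ : ∃ k, (F j).natDegree = k + 1)
  have hk1 : ∀ j, 1 ≤ k j := fun j => by
    have h1 := hF j
    have h2 := hk j
    omega
  have hrt : ∀ (j : Fin n) (x : ℕ), (x : ℝ) ^ (1 - 1 / ((F j).natDegree : ℝ)) = Pool.Agent.TH204.WR.rt (k j) x ^ (k j) :=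
    fun j x => (rt_eq (k j) (F j) (hk j) x).symm
  constructor
  · intro K
    obtain ⟨B, E₀, h⟩ := Pool.Agent.Q156.MW.tuples n k hk1 F hk U C K
    refine ⟨B, E₀, fun E hE => ?_⟩
    obtain ⟨X₀, h⟩ := h E hE
    refine ⟨X₀, fun x hx w hw => ?_⟩
    obtain ⟨Bad, h1, h2, h3⟩ := h x hx w hw
    refine ⟨Bad, h1, h2, fun a ha haB i hi s hs u v huv hv => ?_⟩
    rw [primeSum_eq, sieveSum_eq]
    exact h3 a ha haB i hi s hs u v huv (fun j m hm => by rw [← hrt]; exact hv j m hm)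
  · intro ε hε
    obtain ⟨B, E, X₀, h⟩ := Pool.Agent.Q156.MW.asym n k hk1 F hk ε hε U C
    refine ⟨B, E, X₀, fun x hx => ?_⟩
    obtain ⟨Bad, h1, h2, h3⟩ := h x hx
    refine ⟨Bad, h1, h2, fun a ha haB s hs u v huv hv => ?_⟩
    exact h3 a ha haB s hs u v huv (fun j m hm => by rw [← hrt]; exact hv j m hm)

end Pool.Agent.Results.MP_2dba45_nt.AlmostAllConstantTerms
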