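import Pool.Agent.Q138.PS.TK

/-!
# Chen's theorem along `⌊α (m ^ 2 + 1)⌋`

The question asks for primes `p = m ^ 2 + 1` for which `p + 2 = m ^ 2 + 3` is prime. Let `q ≥ 2`. Outside a set
of real numbers of Hausdorff dimension at most `q / (q + 1 / (q 2 ^ (q - 1)))` (that is `8 / 9` for `q = 2`) every
`α > 0` has the following property: for large `N`, for ALL integral polynomials `P` of degree `q` (such as
`m ^ 2 + 1`) with coefficients of size at most `N ^ η` and ALL admissible shifts `h 0, ..., h r` of size at most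
`N ^ η`, at least `c N / (log N) ^ (r + 2)` of the `m ≤ N` are such that `p = ⌊α P(m)⌋` is prime, `p + h 0` is a
product of at most two primes, and all `p + h i` have only prime factors `> p ^ (1 / t)`, with `c > 0` and `t`
depending only on `q` and `r`.
-/

set_option autoImplicit false

open Finset Filter Topology MeasureTheory

namespace Pool.Agent.Results.MP_2dba45_nt.ChenRealMultiples

/-- `p` is prime, `p + h 0` is not zero and up to the sign a product of at most two primes, and no `p + h i` has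
a prime factor `≤ p ^ (1 / t)` -/
def Chen {r : ℕ} (t : ℕ) (h : Fin (r + 1) → ℤ) (p : ℕ) : Prop :=
  p.Prime ∧ (p : ℤ) + h 0 ≠ 0 ∧ ((p : ℤ) + h 0).natAbs.primeFactorsList.length ≤ 2 ∧
    ∀ i, ∀ s : ℕ, s.Prime → (s : ℝ) ≤ (p : ℝ) ^ (1 / (t : ℝ)) → ¬ (s : ℤ) ∣ (p : ℤ) + h i

/-- no prime divides all values of `c (c + h 0) ... (c + h r)` -/
def Admissible {r : ℕ} (h : Fin (r + 1) → ℤ) : Prop :=
  ∀ s : ℕ, s.Prime → ∃ c : ℤ, ¬ (s : ℤ) ∣ c ∧ ∀ i, ¬ (s : ℤ) ∣ c + h i

open Classical in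
/-- the number of `1 ≤ m ≤ N` for which the integer part of `α P(m)` is a prime with the property `Chen` -/
noncomputable def count {r : ℕ} (α : ℝ) (P : Polynomial ℤ) (t : ℕ) (h : Fin (r + 1) → ℤ) (N : ℕ) : ℕ :=
  ((Icc 1 N).filter fun m : ℕ => Chen t h ⌊α * ((P.eval (m : ℤ) : ℤ) : ℝ)⌋₊).card

/-- **Chen primes and almost prime tuples along `⌊α P(m)⌋`, uniformly in the polynomial and in the shifts, for all
`α` outside a set of dimension less than one.** -/
theorem result (q r : ℕ) (hq : 2 ≤ q) : ∃ t : ℕ, 1 ≤ t ∧ ∃ c : ℝ, 0 < c ∧ ∃ E : Set ℝ,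
    dimH E ≤ ENNReal.ofReal ((q : ℝ) / (q + 1 / (q * 2 ^ (q - 1)))) ∧ ∀ α : ℝ, 0 < α → α ∉ E → ∃ η : ℝ, 0 < η ∧
    ∀ᶠ N : ℕ in atTop, ∀ P : Polynomial ℤ, P.natDegree = q → 0 < P.leadingCoeff →
      (∀ j, |((P.coeff j : ℤ) : ℝ)| ≤ (N : ℝ) ^ η) →
      ∀ h : Fin (r + 1) → ℤ, (∀ i, |((h i : ℤ) : ℝ)| ≤ (N : ℝ) ^ η) → h 0 ≠ 0 → Admissible h →
        c * N / (Real.log N) ^ (r + 2) ≤ count α P t h N := by
  classical
  obtain ⟨t, ht, c, hc, E, hE, h⟩ := Pool.Agent.Q138.PS.chen_args q hq r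
  refine ⟨t, ht, c, hc, E, hE, fun α hα hαE => ?_⟩
  obtain ⟨η, hη, hev⟩ := h α hα hαE
  refine ⟨η, hη, ?_⟩
  filter_upwards [hev] with N hN
  intro P hdeg hlead hco h hh h0 hadm
  have h1 := hN h hh h0 hadm P hdeg hlead hco
  have h4 : ∀ n : ℕ, (P.map (Int.castRingHom ℝ)).eval (n : ℝ) = ((P.eval (n : ℤ) : ℤ) : ℝ) := by
    intro n
    have := Polynomial.eval_intCast_map (Int.castRingHom ℝ) P (n : ℤ)
    push_cast at this
    exact this
  refine h1.trans (le_of_eq ?_)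
  unfold count
  refine congrArg (fun s : Finset ℕ => ((s.card : ℕ) : ℝ)) ?_
  ext n
  simp only [mem_filter, h4]
  exact Iff.rfl

end Pool.Agent.Results.MP_2dba45_nt.ChenRealMultiples
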