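import Pool.Agent.Q175.NP.Gen

/-!
# Pairs of almost primes `m ^ 2 + 1`, `m ^ 2 + 3` in narrow progressions

There is `t` such that the `m` at which `m ^ 2 + 1` and `m ^ 2 + 3` have no prime factor `≤ X ^ (1/t)` have at least the expected
order of magnitude in all intervals of length `θ X`, every subset of positive relative density contains arithmetic progressions of any
length whose difference is at most a power of `log X`, and for every colouring there are such progressions of one colour along which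
the number of the prime factors of `m ^ 2 + 1` and that of `m ^ 2 + 3` are constant.
-/

set_option autoImplicit false

namespace Pool.Agent.Results.MP_2dba45_nt.NarrowProgressions

open Finset
open Pool.Agent.Q253.Thin (VZ_low int_lower IS Zc AdmP sysP mem_Zc)
open Pool.Agent.Q175.NP

open Classical in
/-- the `m` of `(A, B]` such that `m ^ 2 + 1` and `m ^ 2 + 3` have no prime factor `≤ X ^ (1/t)` -/
noncomputable def G (t X A B : ℕ) : Finset ℕ :=
  (Ioc A B).filter (fun m => ∀ q : ℕ, q.Prime → (q ∣ m ^ 2 + 1 ∨ q ∣ m ^ 2 + 3) → (X : ℝ) ^ (1 / (t : ℝ)) < q)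

lemma mem_G {t X A B m : ℕ} : m ∈ G t X A B ↔ (A < m ∧ m ≤ B) ∧
    ∀ q : ℕ, q.Prime → (q ∣ m ^ 2 + 1 ∨ q ∣ m ^ 2 + 3) → (X : ℝ) ^ (1 / (t : ℝ)) < q := by
  classical
  unfold G
  rw [mem_filter, mem_Ioc]

open Classical in
/-- the number of the classes `n` modulo `q` with `q ∣ (n ^ 2 + 1) (n ^ 2 + 3)` -/
noncomputable def ω (q : ℕ) : ℕ := ((range q).filter (fun n => q ∣ n ^ 2 + 1 ∨ q ∣ n ^ 2 + 3)).card

/-- the sieve product of the pair -/
noncomputable def V (X : ℕ) : ℝ := ∏ q ∈ (Icc 1 X).filter Nat.Prime, (1 - (ω q : ℝ) / q)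

/-- the coefficients of `(x ^ 2 + 1) (x ^ 2 + 3)` -/
def co : Fin (4 + 1) → ℤ := ![3, 0, 4, 0, 1]

lemma val_co (m : ℕ) : Pool.Agent.Q253.Thin.val co m = (((m ^ 2 + 1) * (m ^ 2 + 3) : ℕ) : ℤ) := by
  unfold Pool.Agent.Q253.Thin.val co
  simp [Fin.sum_univ_succ]
  ring

lemma dvd_co {q : ℕ} (hq : q.Prime) (m : ℕ) : (q : ℤ) ∣ Pool.Agent.Q253.Thin.val co m ↔ (q ∣ m ^ 2 + 1 ∨ q ∣ m ^ 2 + 3) := by
  rw [val_co, Int.natCast_dvd_natCast]
  exact hq.dvd_mul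

lemma adm : AdmP co := by
  intro q hq
  by_cases h3 : q = 3
  · refine ⟨1, ?_⟩
    rw [dvd_co hq, h3]
    norm_num
  · refine ⟨0, ?_⟩
    rw [dvd_co hq]
    rintro (h | h)
    · norm_num at h
      exact hq.one_lt.ne' h
    · exact h3 ((Nat.prime_dvd_prime_iff_eq hq Nat.prime_three).1 h)

lemma V_eq (X : ℕ) : Pool.Agent.Y843.HS.VV (Zc co) 0 X = V X := by
  classical
  rw [VV_eq]
  unfold V
  apply prod_congr rfl
  intro q hq
  have hqp := (mem_filter.1 hq).2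
  have : (Zc co q).card = ω q := by
    unfold Zc ω
    congr 1
    ext n
    rw [mem_filter, mem_filter, dvd_co hqp]
  rw [this]

lemma G_eq (t X A B : ℕ) : G t X A B = IS t X A B (Zc co) := by
  ext m
  rw [mem_G, mem_IS]
  refine and_congr_right fun _ => ?_
  constructor
  · intro h q hq hqX hmem
    have := h q hq ((dvd_co hq m).1 ((mem_Zc co hq.pos m).1 hmem))
    linarith
  · intro h q hq hqd
    by_contra hcon
    push Not at hcon
    exact h q hq hcon ((mem_Zc co hq.pos m).2 ((dvd_co hq m).2 hqd))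

/-- **Pairs of almost primes `m ^ 2 + 1`, `m ^ 2 + 3` in narrow progressions.** -/
theorem result : ∃ t : ℕ, 1 ≤ t ∧
    (∃ c : ℝ, 0 < c ∧ (∀ X : ℕ, 2 ≤ X → c / Real.log X ^ 4 ≤ V X) ∧
      ∀ θ : ℝ, 0 < θ → ∃ X₀ : ℕ, ∀ X : ℕ, X₀ ≤ X → ∀ A B : ℕ, θ * X ≤ (B : ℝ) - A →
      c * (((B : ℝ) - A) * V X) ≤ ((G t X A B).card : ℝ)) ∧
    (∀ (L : ℕ) (θ ε : ℝ), 0 < θ → 0 < ε → ∃ D X₀ : ℕ, ∀ X : ℕ, X₀ ≤ X → ∀ A B : ℕ, θ * X ≤ (B : ℝ) - A → B ≤ X →
      ∀ S ⊆ G t X A B, ε * ((G t X A B).card : ℝ) ≤ S.card →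
      ∃ m d : ℕ, 1 ≤ d ∧ (d : ℝ) ≤ Real.log X ^ D ∧ ∀ j < L, m + j * d ∈ S) ∧
    (∀ (L r : ℕ) (θ : ℝ), 1 ≤ r → 0 < θ → ∃ D X₀ : ℕ, ∀ X : ℕ, X₀ ≤ X → ∀ A B : ℕ,
      θ * X ≤ (B : ℝ) - A → B ≤ X → ∀ col : ℕ → Fin r,
      ∃ s₁ s₂ : ℕ, (1 ≤ s₁ ∧ s₁ ≤ 3 * t) ∧ (1 ≤ s₂ ∧ s₂ ≤ 3 * t) ∧ ∃ o : Fin r, ∃ m d : ℕ,
        1 ≤ d ∧ (d : ℝ) ≤ Real.log X ^ D ∧ ∀ j < L, m + j * d ∈ G t X A B ∧ col (m + j * d) = o ∧
        ((m + j * d) ^ 2 + 1).primeFactorsList.length = s₁ ∧ ((m + j * d) ^ 2 + 3).primeFactorsList.length = s₂) := by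
  classical
  obtain ⟨t, ht, c, hc, H⟩ := int_lower 4 (by norm_num)
  refine ⟨t, ht, ?_, ?_, ?_⟩
  · obtain ⟨c', hc', hlow⟩ := VZ_low 4 (by norm_num)
    refine ⟨min c c', lt_min hc hc', fun X hX => ?_, fun θ hθ => ?_⟩
    · have h5 := hlow X hX _ (sysP co adm)
      rw [V_eq] at h5
      refine le_trans ?_ h5
      have hl : 0 ≤ Real.log X := Real.log_natCast_nonneg _
      exact div_le_div_of_nonneg_right (min_le_right _ _) (by positivity)
    · obtain ⟨X₀, H1⟩ := H θ hθ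
      refine ⟨X₀, fun X hX A B hAB => ?_⟩
      have h4 := H1 X hX _ (sysP co adm) A B hAB
      rw [V_eq] at h4
      rw [G_eq]
      refine le_trans ?_ h4
      have hBA : 0 ≤ (B : ℝ) - A := le_trans (by positivity) hAB
      have hV : 0 ≤ V X := by
        rw [← V_eq]
        exact Pool.Agent.Q253.Thin.VZ_nonneg (sysP co adm) 0 X
      exact mul_le_mul_of_nonneg_right (min_le_left _ _) (by positivity)
  · intro L θ ε hθ hε
    obtain ⟨D, X₀, H1⟩ := dense_of ht hc H L θ ε hθ hε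
    refine ⟨D, X₀, fun X hX A B hAB hBX S hS hSc => ?_⟩
    rw [G_eq] at hS hSc
    exact H1 X hX _ (sysP co adm) A B hAB hBX S hS hSc
  · intro L r θ hr hθ
    set K : Finset ((ℕ × ℕ) × Fin r) := ((Icc 1 (3 * t)) ×ˢ (Icc 1 (3 * t))) ×ˢ univ with hK
    have hKne : K.Nonempty := by
      rw [hK]
      refine Finset.Nonempty.product (Finset.Nonempty.product ?_ ?_) ⟨⟨0, hr⟩, mem_univ _⟩ <;>
        exact ⟨1, by rw [mem_Icc]; omega⟩
    obtain ⟨D, X₀, H1⟩ := colour_of ht hc H K hKne L θ hθ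
    refine ⟨D, max X₀ 4, fun X hX A B hAB hBX col => ?_⟩
    have hX4 : 4 ≤ X := (le_max_right _ _).trans hX
    obtain ⟨g, hg, m, d, hd1, hd2, hd3⟩ := H1 X ((le_max_left _ _).trans hX) _ (sysP co adm) A B hAB hBX
      (fun m => (((m ^ 2 + 1).primeFactorsList.length, (m ^ 2 + 3).primeFactorsList.length), col m)) (by
        intro m hm
        rw [← G_eq, mem_G] at hm
        obtain ⟨⟨h1, h2⟩, h3⟩ := hm
        have hmX : m ^ 2 ≤ X ^ 2 := Nat.pow_le_pow_left (by omega) 2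
        have hm1 : 1 ≤ m ^ 2 := Nat.one_le_pow _ _ (by omega)
        have hX3 : X ^ 2 + 3 ≤ X ^ 3 := by
          have e1 : X ^ 3 = X ^ 2 * X := pow_succ X 2
          have e2 : X ^ 2 * 4 ≤ X ^ 2 * X := Nat.mul_le_mul_left _ hX4
          have e3 : 1 ≤ X ^ 2 := Nat.one_le_pow _ _ (by omega)
          omega
        rw [hK, mem_product, mem_product, mem_Icc, mem_Icc]
        refine ⟨⟨⟨omega_ge (by omega), ?_⟩, ⟨omega_ge (by omega), ?_⟩⟩, mem_univ _⟩
        · exact omega_le (C := 3) ht (by omega) (by omega) (by omega) (fun q hq hqd => h3 q hq (Or.inl hqd))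
        · exact omega_le (C := 3) ht (by omega) (by omega) (by omega) (fun q hq hqd => h3 q hq (Or.inr hqd)))
    rw [hK, mem_product, mem_product, mem_Icc, mem_Icc] at hg
    refine ⟨g.1.1, g.1.2, hg.1.1, hg.1.2, g.2, m, d, hd1, hd2, fun j hj => ?_⟩
    obtain ⟨g1, g2⟩ := hd3 j hj
    refine ⟨?_, ?_, ?_, ?_⟩
    · rw [G_eq]; exact g1
    · rw [← g2]
    · rw [← g2]
    · rw [← g2]

end Pool.Agent.Results.MP_2dba45_nt.NarrowProgressions
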