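import Mathlib
import Pool.Agent.Q263.PK.Gen

/-!
# The pairs `m ^ 2 + 1`, `m ^ 2 + 3` at the integers with restricted digits: constant and gaps

Fix a base `b ≥ 2`. For `k ≥ 1` choose for every position `i < k` a set `D i` of digits, in any way,
such that two digits in `D i` have a difference without prime factors outside `b`, for example two
consecutive digits. Let `S` be the set of the integers `0 ≤ m < b ^ k` whose `i`-th digit is in
`D i` for every `i`; it may have only `2 ^ k` elements. Let `S(y)` be the set of the `m ∈ S` such that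
neither `m ^ 2 + 1` nor `m ^ 2 + 3` has a prime factor `≤ y`.

For all `Λ` and `ε > 0` there are `L`, `y₀`, `k₀`, which depend on `b`, `Λ` and `ε` only, such that
for all `k ≥ k₀`, all choices of the sets of digits and all `y ≥ y₀` with `y ^ L ≤ b ^ k`:

(1) the number of the elements of `S(y)` is

  `(1 + θ) · g · ∏_{i ≥ 1} |D i| · ∏_{p ≤ y, p ∤ b} (1 - ρ(p) / p)`, `|θ| ≤ ε`,

where `g` is the number of the last digits `d ∈ D 0` such that `(d ^ 2 + 1) (d ^ 2 + 3)` is coprime to
`b`, and `ρ(p)` is the number of the `m` modulo `p` such that `p` divides `(m ^ 2 + 1) (m ^ 2 + 3)`;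
these are the local factors in the conjecture for the simultaneous primes;

(2) for all `T` with `x = T ∏_{p ≤ y} (1 - ρ(p) / p) ≤ Λ` and all finite sets `A` the proportion of
the `m ∈ S(y)` for which the number of the `t` in `(m, m + T]` such that neither `t ^ 2 + 1` nor
`t ^ 2 + 3` has a prime factor `≤ y` belongs to `A` differs from `∑_{j ∈ A} exp(-x) x ^ j / j!` by at
most `ε`. So the distance to the next such `t` has the exponential distribution.
-/

set_option autoImplicit false

namespace Pool.Agent.Results.MP_2dba45_nt.PairsAtDigits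

open Finset Polynomial

/-- The integers `0 ≤ m < b ^ k` whose `i`-th digit in base `b` belongs to `D i`, for all `i < k`. -/
def Restricted (b k : ℕ) (D : Fin k → Finset ℕ) : Finset ℕ :=
  (Finset.range (b ^ k)).filter (fun n => ∀ i : Fin k, n / b ^ (i : ℕ) % b ∈ D i)

/-- Each `D i` is a set of digits, and it has two digits `c < c'` such that every prime factor of
`c' - c` divides `b`. -/
def DigitSets (b k : ℕ) (D : Fin k → Finset ℕ) : Prop :=
  ∀ i, (∀ d ∈ D i, d < b) ∧ ∃ c ∈ D i, ∃ c' ∈ D i, c < c' ∧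
    ∀ p : ℕ, p.Prime → p ∣ c' - c → p ∣ b

/-- The product of the two values. -/
def both (m : ℕ) : ℤ := ((m : ℤ) ^ 2 + 1) * ((m : ℤ) ^ 2 + 3)

/-- Neither `m ^ 2 + 1` nor `m ^ 2 + 3` has a prime factor `≤ y`. -/
def Rough (y m : ℕ) : Prop := ∀ p : ℕ, p.Prime → p ≤ y → ¬ (p : ℤ) ∣ both m

open Classical in
/-- The set `S(y)`. -/
noncomputable def Start (b k : ℕ) (D : Fin k → Finset ℕ) (y : ℕ) : Finset ℕ :=
  (Restricted b k D).filter (fun n => Rough y n)

open Classical in
/-- The number of the `t` in `(m, m + T]` such that neither `t ^ 2 + 1` nor `t ^ 2 + 3` has a prime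
factor `≤ y`. -/
noncomputable def next (y T m : ℕ) : ℕ := ((Finset.Ioc m (m + T)).filter (fun t => Rough y t)).card

open Classical in
/-- The number of the residues `m` modulo `p` such that `p ∣ (m ^ 2 + 1) (m ^ 2 + 3)`. -/
noncomputable def rho (p : ℕ) : ℕ := ((range p).filter (fun m => (p : ℤ) ∣ both m)).card

/-- The density of the `t` such that neither `t ^ 2 + 1` nor `t ^ 2 + 3` has a prime factor `≤ y`. -/
noncomputable def density (y : ℕ) : ℝ :=
  ∏ p ∈ (Finset.Icc 1 y).filter Nat.Prime, (1 - (rho p : ℝ) / (p : ℝ))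

/-- The number of the last digits `d` such that `(d ^ 2 + 1) (d ^ 2 + 3)` is coprime to `b`. -/
def lastDigits (b k : ℕ) (D : Fin k → Finset ℕ) : ℕ :=
  (((Finset.univ : Finset (Fin k)).filter (fun i : Fin k => (i : ℕ) = 0)).biUnion
    (fun i => (D i).filter (fun d : ℕ => Int.gcd (both d) b = 1))).card

/-- The product of the numbers of the elements of `D i` over the positions `i ≥ 1`. -/
def otherDigits (k : ℕ) (D : Fin k → Finset ℕ) : ℕ :=
  ∏ i ∈ (Finset.univ : Finset (Fin k)).filter (fun i : Fin k => (i : ℕ) ≠ 0), (D i).card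

/-- The main term. -/
noncomputable def mainTerm (b k : ℕ) (D : Fin k → Finset ℕ) (y : ℕ) : ℝ :=
  (lastDigits b k D : ℝ) * otherDigits k D *
    ∏ p ∈ (Finset.Icc 1 y).filter (fun p => p.Prime ∧ ¬ p ∣ b), (1 - (rho p : ℝ) / (p : ℝ))

/-- The measure of `A` for the Poisson distribution with the mean `x`. -/
noncomputable def poisson (x : ℝ) (A : Finset ℕ) : ℝ :=
  ∑ j ∈ A, Real.exp (-x) * x ^ j / (j.factorial : ℝ)

open Pool.Agent.W123.RU.Poly (Sys Q)
open Pool.Agent.H373R2.T7 Pool.Agent.W123.RP Pool.Agent.W123.RU Pool.Agent.TH464.PO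
open Pool.Agent.Q263.PK Pool.Agent.Q263.PK.Gen

/-- the polynomials -/
noncomputable def F : Fin 2 → ℤ[X] := fun i => C 1 * X ^ 2 + C 0 * X + C (2 * (i : ℤ) + 1)

lemma F_eval (i : Fin 2) (t : ℕ) : (F i).eval (t : ℤ) = (t : ℤ) ^ 2 + (2 * (i : ℤ) + 1) := by
  unfold F
  rw [eval_quad]
  ring

lemma F_sys : Sys F := by
  refine ⟨fun i => ?_, fun i => ?_, fun i => ?_, fun i j h => ?_, ?_⟩
  · unfold F
    apply irr_quad 1 0 _ (by norm_num) ⟨1, 0, 0, by norm_num⟩
    rintro ⟨r, hr⟩
    have h1 : (0 : ℤ) ≤ (i : ℤ) := by positivity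
    nlinarith [mul_self_nonneg r]
  · unfold F
    rw [deg_quad 1 0 _ (by norm_num)]
    norm_num
  · unfold F
    rw [lead_quad 1 0 _ (by norm_num)]
    norm_num
  · have h1 := congrArg (fun f : ℤ[X] => f.eval ((0 : ℕ) : ℤ)) h
    simp only [F_eval] at h1
    apply Fin.ext
    push_cast at h1
    have h2 : ((i : ℕ) : ℤ) = ((j : ℕ) : ℤ) := by linarith
    exact_mod_cast h2
  · intro p hp
    rcases eq_or_ne p 3 with rfl | h3
    · refine ⟨2, fun i h => ?_⟩
      rw [F_eval] at h
      fin_cases i <;> norm_num at h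
    · refine ⟨0, fun i h => ?_⟩
      rw [F_eval] at h
      fin_cases i
      · have h1 : (p : ℤ) ∣ 1 := by simpa using h
        have h2 : p ∣ 1 := by exact_mod_cast h1
        exact hp.one_lt.ne' (Nat.dvd_one.1 h2)
      · have h1 : (p : ℤ) ∣ 3 := by
          norm_num at h
          exact h
        have h2 : p ∣ 3 := by exact_mod_cast h1
        exact h3 ((Nat.prime_dvd_prime_iff_eq hp Nat.prime_three).1 h2)

lemma Q_iff (p m : ℕ) (hp : p.Prime) : Q F p m ↔ (p : ℤ) ∣ both m := by
  have hpz : Prime (p : ℤ) := Nat.prime_iff_prime_int.1 hp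
  unfold Q both
  rw [hpz.dvd_mul]
  constructor
  · rintro ⟨i, h⟩
    rw [F_eval] at h
    fin_cases i
    · left
      simpa using h
    · right
      norm_num at h
      exact h
  · rintro (h | h)
    · refine ⟨0, ?_⟩
      rw [F_eval]
      simpa using h
    · refine ⟨1, ?_⟩
      rw [F_eval]
      norm_num
      exact h

lemma F_noTr : NoTr2 F F := by
  intro i j t ht
  unfold F
  exact quad_comp_ne 1 0 _ 0 _ (by norm_num) le_rfl t ht

open Classical in
theorem result : ∀ b : ℕ, 2 ≤ b → ∀ Λ ε : ℝ, 0 < ε →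
    ∃ L y₀ k₀ : ℕ, 1 ≤ L ∧ ∀ k : ℕ, k₀ ≤ k → ∀ D : Fin k → Finset ℕ, DigitSets b k D →
      ∀ y : ℕ, y₀ ≤ y → y ^ L ≤ b ^ k →
      |((Start b k D y).card : ℝ) - mainTerm b k D y| ≤ ε * mainTerm b k D y ∧
      ∀ T : ℕ, T * density y ≤ Λ → ∀ A : Finset ℕ,
        |(((Start b k D y).filter (fun n => next y T n ∈ A)).card : ℝ) -
          (Start b k D y).card * poisson (T * density y) A| ≤ ε * (Start b k D y).card := by
  intro b hb Λ ε hε
  exact law hb F F_sys F F_sys F_noTr F_noTr both both Q_iff Q_iff Λ ε hε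

end Pool.Agent.Results.MP_2dba45_nt.PairsAtDigits
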